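import Pool.Agent.Helper66.PD.Up2

/-!
# Posets with cover graph of path-width two: cycles
-/

set_option autoImplicit false

namespace Pool.Agent.Helper23.NW

open Pool.Agent.Helper66.PD

/-- positions, boundaries (`K z u`: the element `z` is over the boundary `u`), two colours -/
structure Dat (P : Type) [PartialOrder P] (N : ℕ) (p : P → ℕ) (K : P → ℕ → Prop)
    (κ : P → Bool) : Prop where
  le : ∀ x, p x ≤ N
  pos : ∀ z u, K z u → 1 ≤ u ∧ u ≤ N
  two : ∀ u a b, K a u → K b u → a ≠ b → κ a ≠ κ b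
  cro : ∀ x y u, x ≤ y → (p x < u ∧ u ≤ p y ∨ p y < u ∧ u ≤ p x) → ∃ b, x ≤ b ∧ b ≤ y ∧ K b u
  stp : ∀ u a b a' b', K a u → K b u → K a' (u + 1) → K b' (u + 1) → a ≠ b → a ≠ b' →
    a' ≠ b → a' ≠ b' → a = a' ∨ b = b'

variable {P : Type} [PartialOrder P] {N : ℕ} {p : P → ℕ} {K : P → ℕ → Prop} {κ : P → Bool}

/-- reflection -/
theorem Dat.refl (D : Dat P N p K κ) : Dat P N (fun x => N - p x)
    (fun z u => 1 ≤ u ∧ u ≤ N ∧ K z (N + 1 - u)) κ where
  le x := Nat.sub_le _ _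
  pos z u h := ⟨h.1, h.2.1⟩
  two u a b ha hb := D.two _ a b ha.2.2 hb.2.2
  cro x y u hxy h := by
    have h1 := D.le x
    have h2 := D.le y
    obtain ⟨b, b1, b2, b3⟩ := D.cro x y (N + 1 - u) hxy (by omega)
    exact ⟨b, b1, b2, by omega, by omega, b3⟩
  stp u a b a' b' h1 h2 h3 h4 h5 h6 h7 h8 := by
    have e : N + 1 - u = (N + 1 - (u + 1)) + 1 := by omega
    have h1' := h1.2.2
    have h2' := h2.2.2
    rw [e] at h1' h2'
    rcases D.stp _ a' b' a b h3.2.2 h4.2.2 h1' h2' h8 h7 h6 h5 with h | h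
    · exact Or.inl h.symm
    · exact Or.inr h.symm

theorem Dat.eq (D : Dat P N p K κ) {u : ℕ} {a b : P} (ha : K a u) (hb : K b u)
    (h : κ a = κ b) : a = b := by
  by_contra hne
  exact D.two u a b ha hb hne h

/-- two disjoint covering families have constant colours -/
theorem Dat.fam (D : Dat P N p K κ) (F G : P → Prop) (hFG : ∀ z, F z → G z → False) (s t : ℕ)
    (hF : ∀ u, s < u → u ≤ t → ∃ a, F a ∧ K a u) (hG : ∀ u, s < u → u ≤ t → ∃ b, G b ∧ K b u) :
    ∀ j u, s < u → u + j ≤ t → ∀ a a', F a → K a u → F a' → K a' (u + j) → κ a = κ a' := by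
  have hne : ∀ a b, F a → G b → a ≠ b := by
    rintro a b ha hb rfl
    exact hFG a ha hb
  intro j
  induction j with
  | zero =>
    intro u h1 h2 a a' ha hau ha' hau'
    obtain ⟨b, hb, hbu⟩ := hG u h1 (by omega)
    have e1 := D.two u a b hau hbu (hne _ _ ha hb)
    have e2 := D.two u a' b hau' hbu (hne _ _ ha' hb)
    cases h3 : κ a <;> cases h4 : κ a' <;> cases h5 : κ b <;> simp_all
  | succ j ih =>
    intro u h1 h2 a a' ha hau ha' hau'
    obtain ⟨a1, ha1, hau1⟩ := hF (u + j) (by omega) (by omega)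
    obtain ⟨b1, hb1, hbu1⟩ := hG (u + j) (by omega) (by omega)
    obtain ⟨b', hb', hbu'⟩ := hG (u + j + 1) (by omega) (by omega)
    have e0 := ih u h1 (by omega) a a1 ha hau ha1 hau1
    have e1 := D.two _ a1 b1 hau1 hbu1 (hne _ _ ha1 hb1)
    have e2 := D.two _ a' b' hau' hbu' (hne _ _ ha' hb')
    rcases D.stp (u + j) a1 b1 a' b' hau1 hbu1 hau' hbu' (hne _ _ ha1 hb1) (hne _ _ ha1 hb')
      (hne _ _ ha' hb1) (hne _ _ ha' hb') with h3 | h3
    · rw [e0, h3]
    · subst h3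
      rw [e0]
      cases h3 : κ a1 <;> cases h4 : κ a' <;> cases h5 : κ b1 <;> simp_all

/-- good pairs -/
def Good (p : P → ℕ) (K : P → ℕ → Prop) (κ : P → Bool) (c : Bool) (x y : P) : Prop :=
  ¬ x ≤ y ∧ p x < p y ∧ ∀ u, p x < u → u ≤ p y →
    (∃ a, x ≤ a ∧ K a u ∧ κ a = c) ∧ (∃ b, b ≤ y ∧ K b u ∧ κ b ≠ c)

theorem Good.hit (D : Dat P N p K κ) {c : Bool} {x y d : P} {u : ℕ} (h : Good p K κ c x y)
    (h1 : p x < u) (h2 : u ≤ p y) (hd : K d u) : x ≤ d ∧ κ d = c ∨ d ≤ y ∧ κ d ≠ c := by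
  obtain ⟨⟨a, a1, a2, a3⟩, ⟨b, b1, b2, b3⟩⟩ := h.2.2 u h1 h2
  by_cases h3 : κ d = c
  · left
    have := D.eq hd a2 (h3.trans a3.symm)
    subst this
    exact ⟨a1, h3⟩
  · right
    have h4 : κ d = κ b := by
      cases h5 : κ d <;> cases h6 : κ b <;> cases h7 : c <;> simp_all
    have := D.eq hd b2 h4
    subst this
    exact ⟨b1, h3⟩

theorem Good.disj (D : Dat P N p K κ) {c : Bool} {x y x' y' : P} (h : Good p K κ c x y)
    (h' : Good p K κ c x' y') (hxy : x ≤ y') (u : ℕ) (h1 : p x < u) (h2 : u ≤ p y)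
    (h3 : p x' < u) (h4 : u ≤ p y') : False := by
  obtain ⟨d, d1, d2, d3⟩ := D.cro x y' u hxy (Or.inl ⟨h1, h4⟩)
  rcases h.hit D h1 h2 d3 with ⟨e1, e2⟩ | ⟨e1, e2⟩
  · rcases h'.hit D h3 h4 d3 with ⟨f1, f2⟩ | ⟨f1, f2⟩
    · exact h'.1 (f1.trans d2)
    · exact f2 e2
  · exact h.1 (d1.trans e1)

theorem Good.avoid (D : Dat P N p K κ) {c : Bool} {x y' x1 y1 : P} (h : Good p K κ c x1 y1)
    (hxy : x ≤ y') (n1 : ¬ x ≤ y1) (n2 : ¬ x1 ≤ y') (u : ℕ) (h1 : p x1 < u) (h2 : u ≤ p y1)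
    (h3 : p x < u ∧ u ≤ p y' ∨ p y' < u ∧ u ≤ p x) : False := by
  obtain ⟨d, d1, d2, d3⟩ := D.cro x y' u hxy h3
  rcases h.hit D h1 h2 d3 with ⟨e1, -⟩ | ⟨e1, -⟩
  · exact n2 (e1.trans d2)
  · exact n1 (d1.trans e1)

/-- no strict cycle of good pairs -/
theorem Good.no_strict (D : Dat P N p K κ) (c : Bool) (n : ℕ) (X Y : ℕ → P) (hn : 1 ≤ n)
    (hX : ∀ k, X (k + n) = X k) (hY : ∀ k, Y (k + n) = Y k)
    (hG : ∀ k, Good p K κ c (X k) (Y k)) (hle : ∀ k, X k ≤ Y (k + 1))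
    (hst : ∀ k m, 1 ≤ m → m < n → ¬ X k ≤ Y (k + 1 + m)) : False := by
  -- maximal end
  obtain ⟨M, hM⟩ : ∃ M, ∀ k, p (Y k) ≤ p (Y M) := by
    obtain ⟨M, -, hM⟩ := Finset.exists_max_image (Finset.range n) (fun k => p (Y k))
      ⟨0, Finset.mem_range.2 hn⟩
    have hmod : ∀ k, Y k = Y (k % n) := by
      intro k
      have h1 : ∀ q r, Y (r + n * q) = Y r := by
        intro q
        induction q with
        | zero => intro r; rfl
        | succ q ih => intro r; rw [Nat.mul_succ, ← add_assoc, hY, ih]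
      conv_lhs => rw [← Nat.mod_add_div k n]
      exact h1 _ _
    exact ⟨M, fun k => by rw [hmod k]; exact hM _ (Finset.mem_range.2 (Nat.mod_lt _ hn))⟩
  obtain ⟨k, hk⟩ : ∃ k, k + 1 = M + n := ⟨M + n - 1, by omega⟩
  have hM' : ∀ j, p (Y j) ≤ p (Y (k + 1)) := by
    intro j
    rw [hk, hY]
    exact hM j
  have g0 := hG k
  have g1 := hG (k + 1)
  have g2 := hG (k + 2)
  have l0 : X k ≤ Y (k + 1) := hle k
  have l1 : X (k + 1) ≤ Y (k + 2) := hle (k + 1)
  have a0 := g0.2.1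
  have a1 := g1.2.1
  have a2 := g2.2.1
  have m0 := hM' k
  have m2 := hM' (k + 2)
  have i0 : p (Y k) ≤ p (X (k + 1)) := by
    by_contra hcon
    exact g0.disj D g1 l0 (p (Y k)) a0 le_rfl (by omega) m0
  have i2 : p (Y (k + 2)) ≤ p (X (k + 1)) := by
    by_contra hcon
    exact g1.disj D g2 l1 (p (Y (k + 2))) (by omega) m2 a2 le_rfl
  rcases Nat.lt_or_ge n 3 with hn3 | hn3
  · rcases Nat.lt_or_ge n 2 with hn2 | hn2
    · have hn1 : n = 1 := by omega
      subst hn1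
      have h1 := hX k
      have h2 := hY k
      rw [h2] at l0
      exact g0.1 l0
    · have hn2' : n = 2 := by omega
      subst hn2'
      have hYk := hY k
      rw [hYk] at l1 i2
      have hfam := D.fam (fun z => X k ≤ z ∧ z ≤ Y (k + 1)) (fun z => z ≤ Y k ∨ X (k + 1) ≤ z)
        (by
          rintro z ⟨z1, z2⟩ (z3 | z3)
          · exact g0.1 (z1.trans z3)
          · exact g1.1 (z3.trans z2)) (p (X k)) (p (Y (k + 1)))
        (by
          intro u u1 u2
          obtain ⟨b, b1, b2, b3⟩ := D.cro _ _ u l0 (Or.inl ⟨u1, u2⟩)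
          exact ⟨b, ⟨b1, b2⟩, b3⟩)
        (by
          intro u u1 u2
          rcases Nat.lt_or_ge (p (Y k)) u with u3 | u3
          · rcases Nat.lt_or_ge (p (X (k + 1))) u with u4 | u4
            · obtain ⟨⟨a, a3, a4, -⟩, -⟩ := g1.2.2 u u4 u2
              exact ⟨a, Or.inr a3, a4⟩
            · obtain ⟨b, b1, b2, b3⟩ := D.cro _ _ u l1 (Or.inr ⟨u3, u4⟩)
              exact ⟨b, Or.inr b1, b3⟩
          · obtain ⟨-, ⟨b, b1, b2, -⟩⟩ := g0.2.2 u u1 u3
            exact ⟨b, Or.inl b1, b2⟩)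
      obtain ⟨f1, f2, f3, f4⟩ := D.cro _ _ (p (Y k)) l0 (Or.inl ⟨a0, m0⟩)
      obtain ⟨e1, e2, e3, e4⟩ := D.cro _ _ (p (Y (k + 1))) l0 (Or.inl ⟨by omega, le_rfl⟩)
      have hc := hfam (p (Y (k + 1)) - p (Y k)) (p (Y k)) a0 (by omega) f1 e1 ⟨f2, f3⟩ f4
        ⟨e2, e3⟩ (by
          rw [Nat.add_sub_cancel' m0]
          exact e4)
      rcases g0.hit D a0 le_rfl f4 with ⟨-, f6⟩ | ⟨f5, -⟩
      · rcases g1.hit D a1 le_rfl e4 with ⟨e5, -⟩ | ⟨-, e6⟩
        · exact g1.1 (e5.trans e3)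
        · exact e6 (hc ▸ f6)
      · exact g0.1 (f2.trans f5)
  · -- `n ≥ 3`
    have s1 : ¬ X k ≤ Y (k + 2) := hst k 1 le_rfl (by omega)
    have s2 : ¬ X (k + 2) ≤ Y (k + 1) := by
      have h1 := hst (k + 2) (n - 2) (by omega) (by omega)
      rwa [show k + 2 + 1 + (n - 2) = k + 1 + n by omega, hY] at h1
    have s3 : ¬ X (k + 1) ≤ Y k := by
      have h1 := hst (k + 1) (n - 2) (by omega) (by omega)
      rwa [show k + 1 + 1 + (n - 2) = k + n by omega, hY] at h1
    have j1 : p (Y (k + 2)) ≤ p (X k) := by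
      by_contra hcon
      exact g2.avoid D l0 s1 s2 (p (Y (k + 2))) a2 le_rfl (Or.inl ⟨by omega, m2⟩)
    exact g0.avoid D l1 s3 s1 (p (Y k)) a0 le_rfl (Or.inr ⟨by omega, i0⟩)

/-- a shortest cycle is strict -/
theorem strict (S : P → P → Prop) (n : ℕ) (t : ℕ → P × P) (hn : 1 ≤ n)
    (hper : ∀ k, t (k + n) = t k) (hS : ∀ k, S (t k).1 (t k).2)
    (hle : ∀ k, (t k).1 ≤ (t (k + 1)).2) :
    ∃ (n : ℕ) (t : ℕ → P × P), 1 ≤ n ∧ (∀ k, t (k + n) = t k) ∧ (∀ k, S (t k).1 (t k).2) ∧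
      (∀ k, (t k).1 ≤ (t (k + 1)).2) ∧ ∀ k m, 1 ≤ m → m < n → ¬ (t k).1 ≤ (t (k + 1 + m)).2 := by
  induction n using Nat.strong_induction_on generalizing t with
  | _ n ih =>
    by_cases h : ∀ k m, 1 ≤ m → m < n → ¬ (t k).1 ≤ (t (k + 1 + m)).2
    · exact ⟨n, t, hn, hper, hS, hle, h⟩
    · push Not at h
      obtain ⟨k, m, h1, h2, h3⟩ := h
      have hpos : 0 < n - m := by omega
      refine ih (n - m) (by omega) (fun i => t (k + 1 + m + i % (n - m))) (by omega) ?_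
        (fun i => hS _) ?_
      · intro i
        show t _ = t _
        rw [Nat.add_mod_right]
      · intro i
        have h4 := Nat.mod_lt i hpos
        have h5 := Nat.div_add_mod i (n - m)
        rcases Nat.lt_or_ge (i % (n - m) + 1) (n - m) with h6 | h6
        · have h7 : (i + 1) % (n - m) = i % (n - m) + 1 := by
            rw [Nat.add_mod, Nat.mod_eq_of_lt (show 1 < n - m by omega), Nat.mod_eq_of_lt h6]
          show (t (k + 1 + m + i % (n - m))).1 ≤ (t (k + 1 + m + (i + 1) % (n - m))).2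
          rw [h7]
          exact hle _
        · have h7 : (i + 1) % (n - m) = 0 := by
            have h8 : i + 1 = (n - m) * (i / (n - m) + 1) := by
              rw [Nat.mul_add, Nat.mul_one]
              omega
            rw [h8]
            exact Nat.mul_mod_right _ _
          show (t (k + 1 + m + i % (n - m))).1 ≤ (t (k + 1 + m + (i + 1) % (n - m))).2
          rw [h7, show k + 1 + m + i % (n - m) = k + n by omega, hper]
          exact h3

/-- `u` is between the positions of `x` and `y` -/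
def Btw (p : P → ℕ) (x y : P) (u : ℕ) : Prop := p x < u ∧ u ≤ p y ∨ p y < u ∧ u ≤ p x

/-- everything between is covered from above `x` -/
def Au (p : P → ℕ) (K : P → ℕ → Prop) (x y : P) : Prop :=
  ∀ u, Btw p x y u → ∃ a, x ≤ a ∧ K a u

/-- everything between is covered from below `y` -/
def Bd (p : P → ℕ) (K : P → ℕ → Prop) (x y : P) : Prop :=
  ∀ u, Btw p x y u → ∃ b, b ≤ y ∧ K b u

/-- flag -/
def Fl (p : P → ℕ) (K : P → ℕ → Prop) (κ : P → Bool) (x y : P) : Prop :=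
  ∃ u a, Btw p x y u ∧ x ≤ a ∧ K a u ∧ κ a = true

/-- no decreasing periodic sequence -/
theorem no_dec (f : ℕ → ℕ) (n : ℕ) (hn : 1 ≤ n) (hf : f n = f 0) (h : ∀ k, f (k + 1) < f k) :
    False := by
  have h1 : ∀ k, f k + k ≤ f 0 := by
    intro k
    induction k with
    | zero => exact le_rfl
    | succ k ih => have := h k; omega
  have := h1 n
  omega

/-- no cycle to the right -/
theorem no_right (D : Dat P N p K κ) (qa qb qf : Prop) (n : ℕ) (t : ℕ → P × P) (hn : 1 ≤ n)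
    (hper : ∀ k, t (k + n) = t k)
    (hS : ∀ k, ¬ (t k).1 ≤ (t k).2 ∧ p (t k).1 < p (t k).2 ∧ (Au p K (t k).1 (t k).2 ↔ qa) ∧
      (Bd p K (t k).1 (t k).2 ↔ qb) ∧ (Fl p K κ (t k).1 (t k).2 ↔ qf))
    (hle : ∀ k, (t k).1 ≤ (t (k + 1)).2) : False := by
  classical
  by_cases ha : qa
  · by_cases hb : qb
    · -- good pairs
      obtain ⟨n', t', hn', hper', hS', hle', hst'⟩ := strict (fun x y => ¬ x ≤ y ∧ p x < p y ∧
        (Au p K x y ↔ qa) ∧ (Bd p K x y ↔ qb) ∧ (Fl p K κ x y ↔ qf)) n t hn hper hS hle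
      refine Good.no_strict D (decide qf) n' (fun k => (t' k).1) (fun k => (t' k).2) hn'
        (fun k => by simp only [hper' k]) (fun k => by simp only [hper' k]) ?_ hle' hst'
      intro k
      obtain ⟨g1, g2, g3, g4, g5⟩ := hS' k
      have g3' := g3.2 ha
      have g4' := g4.2 hb
      have hF : ∀ u, p (t' k).1 < u → u ≤ p (t' k).2 → ∃ a, (t' k).1 ≤ a ∧ K a u :=
        fun u u1 u2 => g3' u (Or.inl ⟨u1, u2⟩)
      have hG : ∀ u, p (t' k).1 < u → u ≤ p (t' k).2 → ∃ b, b ≤ (t' k).2 ∧ K b u :=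
        fun u u1 u2 => g4' u (Or.inl ⟨u1, u2⟩)
      have hfam := D.fam (fun z => (t' k).1 ≤ z) (fun z => z ≤ (t' k).2)
        (fun z z1 z2 => g1 (z1.trans z2)) _ _ hF hG
      have hcol : ∀ u a, p (t' k).1 < u → u ≤ p (t' k).2 → (t' k).1 ≤ a → K a u →
          κ a = decide qf := by
        intro u a u1 u2 a1 a2
        by_cases hq : qf
        · obtain ⟨v, b, v1, b1, b2, b3⟩ := g5.2 hq
          have v2 : p (t' k).1 < v ∧ v ≤ p (t' k).2 := by
            rcases v1 with v1 | v1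
            · exact v1
            · omega
          rw [decide_eq_true hq]
          rcases le_total u v with h1 | h1
          · have h2 := hfam (v - u) u u1 (by omega) a b a1 a2 b1 (by
              rw [Nat.add_sub_cancel' h1]; exact b2)
            rw [h2, b3]
          · have h2 := hfam (u - v) v v2.1 (by omega) b a b1 b2 a1 (by
              rw [Nat.add_sub_cancel' h1]; exact a2)
            rw [← h2, b3]
        · rw [decide_eq_false hq]
          by_contra hcon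
          have h3 : κ a = true := by
            cases h4 : κ a
            · exact absurd h4 hcon
            · rfl
          exact hq (g5.1 ⟨u, a, Or.inl ⟨u1, u2⟩, a1, a2, h3⟩)
      refine ⟨g1, g2, fun u u1 u2 => ?_⟩
      obtain ⟨a, a1, a2⟩ := hF u u1 u2
      obtain ⟨b, b1, b2⟩ := hG u u1 u2
      have hcu := hcol u a u1 u2 a1 a2
      refine ⟨⟨a, a1, a2, hcu⟩, ⟨b, b1, b2, ?_⟩⟩
      rw [← hcu]
      exact fun h => (D.two u a b a2 b2 (by rintro rfl; exact g1 (a1.trans b1))) h.symm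
    · -- not covered from below
      refine no_dec (fun k => p (t k).1) n hn (by
        have := hper 0
        rw [zero_add] at this
        simp only [this]) ?_
      intro k
      obtain ⟨g1, g2, g3, g4, g5⟩ := hS (k + 1)
      have h1 : ¬ Bd p K (t (k + 1)).1 (t (k + 1)).2 := fun h => hb (g4.1 h)
      unfold Bd at h1
      push Not at h1
      obtain ⟨u, u1, u2⟩ := h1
      have u3 : p (t (k + 1)).1 < u ∧ u ≤ p (t (k + 1)).2 := by
        rcases u1 with u1 | u1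
        · exact u1
        · omega
      by_contra hcon
      have hcon' : p (t k).1 ≤ p (t (k + 1)).1 := not_lt.1 hcon
      obtain ⟨b, b1, b2, b3⟩ := D.cro _ _ u (hle k) (Or.inl ⟨by omega, u3.2⟩)
      exact u2 b b2 b3
  · refine no_dec (fun k => p (t k).2) n hn (by
      have := hper 0
      rw [zero_add] at this
      simp only [this]) ?_
    intro k
    obtain ⟨g1, g2, g3, g4, g5⟩ := hS k
    have h1 : ¬ Au p K (t k).1 (t k).2 := fun h => ha (g3.1 h)
    unfold Au at h1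
    push Not at h1
    obtain ⟨u, u1, u2⟩ := h1
    have u3 : p (t k).1 < u ∧ u ≤ p (t k).2 := by
      rcases u1 with u1 | u1
      · exact u1
      · omega
    by_contra hcon
    have hcon' : p (t k).2 ≤ p (t (k + 1)).2 := not_lt.1 hcon
    obtain ⟨b, b1, b2, b3⟩ := D.cro _ _ u (hle k) (Or.inl ⟨u3.1, by omega⟩)
    exact u2 b b1 b3

theorem btw_refl (D : Dat P N p K κ) (x y : P) (u : ℕ) (h1 : 1 ≤ u) (h2 : u ≤ N) :
    Btw (fun x => N - p x) x y u ↔ Btw p x y (N + 1 - u) := by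
  have h3 := D.le x
  have h4 := D.le y
  show (N - p x < u ∧ u ≤ N - p y ∨ N - p y < u ∧ u ≤ N - p x) ↔
    (p x < N + 1 - u ∧ N + 1 - u ≤ p y ∨ p y < N + 1 - u ∧ N + 1 - u ≤ p x)
  omega

theorem btw_rng (D : Dat P N p K κ) {x y : P} {u : ℕ} (h : Btw p x y u) : 1 ≤ u ∧ u ≤ N := by
  have h3 := D.le x
  have h4 := D.le y
  unfold Btw at h
  omega

/-- the colours of a pair -/
theorem no_cycle (D : Dat P N p K κ) (hinj : Function.Injective p) (q qa qb qf : Prop) (n : ℕ)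
    (t : ℕ → P × P) (hn : 1 ≤ n) (hper : ∀ k, t (k + n) = t k)
    (hS : ∀ k, ¬ (t k).1 ≤ (t k).2 ∧ (p (t k).1 < p (t k).2 ↔ q) ∧
      (Au p K (t k).1 (t k).2 ↔ qa) ∧ (Bd p K (t k).1 (t k).2 ↔ qb) ∧
      (Fl p K κ (t k).1 (t k).2 ↔ qf))
    (hle : ∀ k, (t k).1 ≤ (t (k + 1)).2) : False := by
  by_cases hq : q
  · exact no_right D qa qb qf n t hn hper (fun k => ⟨(hS k).1, (hS k).2.1.2 hq, (hS k).2.2.1,
      (hS k).2.2.2.1, (hS k).2.2.2.2⟩) hle
  · have D' := D.refl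
    refine no_right D' qa qb qf n t hn hper (fun k => ?_) hle
    obtain ⟨g1, g2, g3, g4, g5⟩ := hS k
    have h1 : p (t k).2 < p (t k).1 := by
      have h2 : ¬ p (t k).1 < p (t k).2 := fun h => hq (g2.1 h)
      have h3 : p (t k).1 ≠ p (t k).2 := fun h => g1 (hinj h).le
      omega
    have h4 := D.le (t k).1
    refine ⟨g1, ?_, ?_, ?_, ?_⟩
    · show N - p (t k).1 < N - p (t k).2
      omega
    · rw [← g3]
      constructor
      · intro h u hu
        obtain ⟨r1, r2⟩ := btw_rng D hu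
        obtain ⟨a, a1, a2⟩ := h (N + 1 - u) ((btw_refl D _ _ _ (by omega) (by omega)).2 (by
          rwa [show N + 1 - (N + 1 - u) = u by omega]))
        refine ⟨a, a1, ?_⟩
        have := a2.2.2
        rwa [show N + 1 - (N + 1 - u) = u by omega] at this
      · intro h u hu
        obtain ⟨r1, r2⟩ := btw_rng D' hu
        obtain ⟨a, a1, a2⟩ := h (N + 1 - u) ((btw_refl D _ _ _ r1 r2).1 hu)
        exact ⟨a, a1, r1, r2, a2⟩
    · rw [← g4]
      constructor
      · intro h u hu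
        obtain ⟨r1, r2⟩ := btw_rng D hu
        obtain ⟨a, a1, a2⟩ := h (N + 1 - u) ((btw_refl D _ _ _ (by omega) (by omega)).2 (by
          rwa [show N + 1 - (N + 1 - u) = u by omega]))
        refine ⟨a, a1, ?_⟩
        have := a2.2.2
        rwa [show N + 1 - (N + 1 - u) = u by omega] at this
      · intro h u hu
        obtain ⟨r1, r2⟩ := btw_rng D' hu
        obtain ⟨a, a1, a2⟩ := h (N + 1 - u) ((btw_refl D _ _ _ r1 r2).1 hu)
        exact ⟨a, a1, r1, r2, a2⟩
    · rw [← g5]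
      constructor
      · rintro ⟨u, a, u1, a1, a2, a3⟩
        obtain ⟨r1, r2⟩ := btw_rng D' u1
        exact ⟨N + 1 - u, a, (btw_refl D _ _ _ r1 r2).1 u1, a1, a2.2.2, a3⟩
      · rintro ⟨u, a, u1, a1, a2, a3⟩
        obtain ⟨r1, r2⟩ := btw_rng D u1
        refine ⟨N + 1 - u, a, (btw_refl D _ _ _ (by omega) (by omega)).2 (by
          rwa [show N + 1 - (N + 1 - u) = u by omega]), a1, ⟨by omega, by omega, ?_⟩, a3⟩
        rwa [show N + 1 - (N + 1 - u) = u by omega]

end Pool.Agent.Helper23.NW
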