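import Pool.Agent.Helper23.NW.Cyc
import Pool.Agent.Helper66.PD.Up3

/-!
# Posets with cover graph of path-width two have dimension at most 16
-/

set_option autoImplicit false

namespace Pool.Agent.Helper23.NW

open Pool.Agent.Helper66.PD Finset

theorem four {P : Type} [Fintype P] {l r : P → ℕ}
    (hc : ∀ q, (univ.filter (fun x => l x ≤ q ∧ q ≤ r x)).card ≤ 2 + 1) {a b c d : P} (q : ℕ)
    (ha : l a ≤ q ∧ q ≤ r a) (hb : l b ≤ q ∧ q ≤ r b) (hc' : l c ≤ q ∧ q ≤ r c)
    (hd : l d ≤ q ∧ q ≤ r d) (h1 : a ≠ b) (h2 : a ≠ c) (h3 : a ≠ d) (h4 : b ≠ c) (h5 : b ≠ d)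
    (h6 : c ≠ d) : False := by
  classical
  have hsub : ({a, b, c, d} : Finset P) ⊆ univ.filter (fun x => l x ≤ q ∧ q ≤ r x) := by
    intro x hx
    simp only [mem_insert, mem_singleton] at hx
    rw [mem_filter]
    rcases hx with rfl | rfl | rfl | rfl
    · exact ⟨mem_univ _, ha⟩
    · exact ⟨mem_univ _, hb⟩
    · exact ⟨mem_univ _, hc'⟩
    · exact ⟨mem_univ _, hd⟩
  have h7 : ({a, b, c, d} : Finset P).card = 4 := by
    rw [card_insert_of_notMem (by simp [h1, h2, h3]), card_insert_of_notMem (by simp [h4, h5]),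
      card_insert_of_notMem (by simp [h6]), card_singleton]
  have h8 := (card_le_card hsub).trans (hc q)
  omega

/-- ranks -/
theorem ranks (P : Type) [Fintype P] (l : P → ℕ) : ∃ ρ : P → ℕ, Function.Injective ρ ∧
    (∀ a b, ρ a ≤ ρ b → l a ≤ l b) ∧ (∀ a, ρ a < Fintype.card P) ∧
    ∀ u, u < Fintype.card P → ∃ w, ρ w = u := by
  classical
  set M := Fintype.card P with hM
  obtain ⟨e⟩ : Nonempty (P ≃ Fin M) := ⟨Fintype.equivFin P⟩
  set key : P → ℕ := fun x => l x * M + (e x : ℕ) with hkey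
  have key_l : ∀ a b, key a ≤ key b → l a ≤ l b := by
    intro a b h
    by_contra hcon
    have h1 : (l b + 1) * M ≤ l a * M := Nat.mul_le_mul_right _ (by omega)
    have h2 : (l b + 1) * M = l b * M + M := by ring
    have h3 := (e b).2
    simp only [hkey] at h
    omega
  have key_inj : Function.Injective key := by
    intro a b h
    have h1 := key_l a b h.le
    have h2 := key_l b a h.ge
    have h3 : l a = l b := le_antisymm h1 h2
    simp only [hkey, h3] at h
    exact e.injective (Fin.ext (by omega))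
  set ρ : P → ℕ := fun x => (univ.filter (fun y => key y < key x)).card with hρ
  have rk_lt : ∀ a b, key a < key b → ρ a < ρ b := by
    intro a b h
    apply card_lt_card
    refine ⟨fun x hx => ?_, fun hsub => ?_⟩
    · rw [mem_filter] at hx ⊢
      exact ⟨mem_univ _, hx.2.trans h⟩
    · have h1 : a ∈ univ.filter (fun y => key y < key a) := hsub (by
        rw [mem_filter]; exact ⟨mem_univ _, h⟩)
      rw [mem_filter] at h1
      exact lt_irrefl _ h1.2
  have rk_le : ∀ a b, ρ a ≤ ρ b → key a ≤ key b := by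
    intro a b h
    by_contra hcon
    have := rk_lt b a (not_le.1 hcon)
    omega
  have rk_inj : Function.Injective ρ := by
    intro a b h
    exact key_inj (le_antisymm (rk_le a b h.le) (rk_le b a h.ge))
  have rk_M : ∀ a, ρ a < M := by
    intro a
    have h1 : ρ a < (univ : Finset P).card := by
      apply card_lt_card
      refine ⟨fun x _ => mem_univ _, fun hsub => ?_⟩
      have h1 := hsub (mem_univ a)
      rw [mem_filter] at h1
      exact lt_irrefl _ h1.2
    exact h1
  refine ⟨ρ, rk_inj, fun a b h => key_l a b (rk_le a b h), rk_M, ?_⟩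
  intro u hu
  have h1 : Function.Injective (fun a : P => (⟨ρ a, rk_M a⟩ : Fin M)) := by
    intro a b h
    exact rk_inj (congrArg Fin.val h)
  have h2 : Function.Surjective (fun a : P => (⟨ρ a, rk_M a⟩ : Fin M)) :=
    ((Fintype.bijective_iff_injective_and_card _).2 ⟨h1, by rw [Fintype.card_fin]⟩).2
  obtain ⟨w, hw⟩ := h2 ⟨u, hu⟩
  exact ⟨w, congrArg Fin.val hw⟩

theorem dat (P : Type) [PartialOrder P] [Fintype P] (l r : P → ℕ) (hlr : ∀ x, l x ≤ r x)
    (hadj : ∀ x y, x ⋖ y → l x ≤ r y ∧ l y ≤ r x)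
    (hc : ∀ q, (univ.filter (fun x => l x ≤ q ∧ q ≤ r x)).card ≤ 2 + 1) :
    ∃ (N : ℕ) (p : P → ℕ) (K : P → ℕ → Prop) (κ : P → Bool), Function.Injective p ∧
      Dat P N p K κ := by
  classical
  obtain ⟨ρ, h1, h2, h3, h4⟩ := ranks P l
  obtain ⟨K, hK⟩ : ∃ K : P → ℕ → Prop, ∀ z u, K z u ↔ ρ z < u ∧ ∃ w, ρ w = u ∧ l w ≤ r z :=
    ⟨fun z u => ρ z < u ∧ ∃ w, ρ w = u ∧ l w ≤ r z, fun _ _ => Iff.rfl⟩
  -- the element at a boundary
  have hKw : ∀ z w, K z (ρ w) → l z ≤ l w ∧ l w ≤ r z := by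
    intro z w h
    rw [hK] at h
    obtain ⟨a1, w', a2, a3⟩ := h
    obtain rfl := h1 a2
    exact ⟨h2 _ _ a1.le, a3⟩
  have hex : ∀ z u, K z u → ∃ w, ρ w = u := by
    intro z u h
    rw [hK] at h
    obtain ⟨-, w, a2, -⟩ := h
    exact ⟨w, a2⟩
  have hlt : ∀ z u, K z u → ρ z < u := fun z u h => ((hK z u).1 h).1
  -- colours
  have huniq : ∀ z1 z2 v u1 u2, z1 ≠ z2 → ρ z1 < ρ v → ρ z2 < ρ v → u1 ≤ u2 → K z1 u1 →
      K v u1 → K z2 u2 → False := by
    intro z1 z2 v u1 u2 hne g1 g2 g3 k1 k2 k3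
    obtain ⟨w1, rfl⟩ := hex _ _ k1
    obtain ⟨w2, rfl⟩ := hex _ _ k3
    have b1 := hKw _ _ k1
    have b2 := hKw _ _ k2
    have b3 := hKw _ _ k3
    have b4 := hlt _ _ k2
    have b5 := h2 _ _ g3
    have b6 : l z2 ≤ l w1 := h2 _ _ (by omega)
    refine four hc (l w1) (a := z1) (b := z2) (c := v) (d := w1) b1 ⟨b6, b5.trans b3.2⟩ b2
      ⟨le_rfl, hlr _⟩ hne ?_ ?_ ?_ ?_ ?_ <;> rintro rfl <;> omega
  have hcol : ∀ j, ∃ κ : P → Bool, ∀ z v, ρ z < j → ρ v < j → z ≠ v → (∃ u, K z u ∧ K v u) →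
      κ z ≠ κ v := by
    intro j
    induction j with
    | zero => exact ⟨fun _ => true, fun z v h => absurd h (Nat.not_lt_zero _)⟩
    | succ j ih =>
      obtain ⟨κ, hκ⟩ := ih
      by_cases hv : ∃ v, ρ v = j
      · obtain ⟨v, rfl⟩ := hv
        refine ⟨fun x => if x = v then decide (∃ z, ρ z < ρ v ∧ (∃ u, K z u ∧ K v u) ∧
          κ z = false) else κ x, ?_⟩
        have key : ∀ z, ρ z < ρ v → (∃ u, K z u ∧ K v u) →
            κ z ≠ decide (∃ z, ρ z < ρ v ∧ (∃ u, K z u ∧ K v u) ∧ κ z = false) := by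
          intro z hz hu
          cases hκz : κ z
          · have h5 : ∃ z, ρ z < ρ v ∧ (∃ u, K z u ∧ K v u) ∧ κ z = false := ⟨z, hz, hu, hκz⟩
            rw [decide_eq_true h5]
            exact Bool.false_ne_true
          · have h5 : ¬ ∃ z, ρ z < ρ v ∧ (∃ u, K z u ∧ K v u) ∧ κ z = false := by
              rintro ⟨z', g1, ⟨u', g2, g2'⟩, g3⟩
              obtain ⟨u, g4, g5⟩ := hu
              have hne : z ≠ z' := by
                rintro rfl
                rw [hκz] at g3
                exact Bool.false_ne_true g3.symm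
              rcases le_total u u' with g6 | g6
              · exact huniq z z' v u u' hne hz g1 g6 g4 g5 g2
              · exact huniq z' z v u' u hne.symm g1 hz g6 g2 g2' g4
            rw [decide_eq_false h5]
            exact Bool.false_ne_true.symm
        intro z x hz hx hne hu
        by_cases hzv : z = v
        · have hxv : x ≠ v := fun h => hne (hzv.trans h.symm)
          subst hzv
          have hx' : ρ x < ρ z := by
            have := h1.ne hxv
            omega
          simp only [if_true, if_neg hxv]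
          obtain ⟨u, u1, u2⟩ := hu
          exact (key x hx' ⟨u, u2, u1⟩).symm
        · by_cases hxv : x = v
          · subst hxv
            have hz' : ρ z < ρ x := by
              have := h1.ne hzv
              omega
            simp only [if_true, if_neg hzv]
            exact key z hz' hu
          · simp only [if_neg hzv, if_neg hxv]
            have e1 := h1.ne hzv
            have e2 := h1.ne hxv
            exact hκ z x (by omega) (by omega) hne hu
      · refine ⟨κ, fun z x hz hx hne hu => hκ z x ?_ ?_ hne hu⟩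
        · have : ρ z ≠ j := fun h => hv ⟨z, h⟩
          omega
        · have : ρ x ≠ j := fun h => hv ⟨x, h⟩
          omega
  obtain ⟨κ, hκ⟩ := hcol (Fintype.card P)
  refine ⟨Fintype.card P, ρ, K, κ, h1, ?_, ?_, ?_, ?_, ?_⟩
  · exact fun x => (h3 x).le
  · intro z u h
    obtain ⟨w, rfl⟩ := hex _ _ h
    have := hlt _ _ h
    have := h3 w
    omega
  · intro u a b ha hb hab
    exact hκ a b (h3 a) (h3 b) hab ⟨u, ha, hb⟩
  · intro x y u hxy
    have hR := le_rtg hxy
    clear hxy
    induction hR using Relation.ReflTransGen.head_induction_on with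
    | refl => intro h; omega
    | head g1 g2 ih =>
      rename_i a c
      intro h
      have hac : a ≤ c := g1.le
      have hcy : c ≤ y := rtg_le g2
      have hadj' := hadj a c g1
      rcases h with ⟨u1, u2⟩ | ⟨u1, u2⟩
      · by_cases u3 : ρ c < u
        · obtain ⟨b, b1, b2, b3⟩ := ih (Or.inl ⟨u3, u2⟩)
          exact ⟨b, hac.trans b1, b2, b3⟩
        · obtain ⟨w, rfl⟩ := h4 u (by have := h3 c; omega)
          refine ⟨a, le_rfl, hac.trans hcy, (hK _ _).2 ⟨u1, w, rfl, ?_⟩⟩
          exact (h2 w c (by omega)).trans hadj'.2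
      · by_cases u3 : ρ c < u
        · obtain ⟨w, rfl⟩ := h4 u (by have := h3 a; omega)
          refine ⟨c, hac, hcy, (hK _ _).2 ⟨u3, w, rfl, ?_⟩⟩
          exact (h2 w a (by omega)).trans hadj'.1
        · obtain ⟨b, b1, b2, b3⟩ := ih (Or.inr ⟨u1, by omega⟩)
          exact ⟨b, hac.trans b1, b2, b3⟩
  · intro u a b a' b' ka kb ka' kb' n1 n2 n3 n4
    by_contra hcon
    push Not at hcon
    obtain ⟨n5, n6⟩ := hcon
    obtain ⟨w, rfl⟩ := hex _ _ ka
    obtain ⟨w', hw'⟩ := hex _ _ ka'
    have c1 := hKw _ _ ka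
    have c2 := hKw _ _ kb
    have d1 := hlt _ _ ka'
    have d2 := hlt _ _ kb'
    rw [← hw'] at ka' kb'
    have c3 := hKw _ _ ka'
    have c4 := hKw _ _ kb'
    have c5 : l w ≤ l w' := h2 _ _ (by omega)
    refine four hc (l w) (a := a) (b := b) (c := a') (d := b') c1 c2
      ⟨h2 _ _ (by omega), c5.trans c3.2⟩ ⟨h2 _ _ (by omega), c5.trans c4.2⟩ n1 n5 n2
      n3.symm n6 n4

/-- posets with cover graph of path-width at most two have dimension at most 16 -/
theorem path_width_two (P : Type) [PartialOrder P] [Fintype P] (h : PathWidthLE (cov P) 2) :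
    DimLE P 16 := by
  classical
  obtain ⟨m, l, r, hlr, hrm, hadj, hc⟩ := st_ITV P 2 h
  obtain ⟨N, p, K, κ, hinj, D⟩ := dat P l r hlr hadj hc
  let χ : P → P → Bool × Bool × Bool × Bool := fun x y =>
    (decide (p x < p y), decide (Au p K x y), decide (Bd p K x y), decide (Fl p K κ x y))
  have hf : ∀ c : Bool × Bool × Bool × Bool, ∃ f : P → ℕ, (∀ x y, x ≤ y → f x ≤ f y) ∧
      ∀ x y, (¬ x ≤ y ∧ χ x y = c) → f y < f x := by
    intro c
    refine st_EXT P (fun x y => ¬ x ≤ y ∧ χ x y = c) (fun x y hxy => hxy.1)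
      (upp_cls st_SEQ P _ ?_)
    intro n t hn hper hall
    refine no_cycle D hinj (c.1 = true) (c.2.1 = true) (c.2.2.1 = true) (c.2.2.2 = true) n t hn
      hper (fun k => ?_) (fun k => (hall k).2.2)
    have h1 := (hall k).1
    have h2 := h1.2
    rw [← h2]
    refine ⟨h1.1, ?_, ?_, ?_, ?_⟩
    · exact decide_eq_true_iff.symm
    · exact decide_eq_true_iff.symm
    · exact decide_eq_true_iff.symm
    · exact decide_eq_true_iff.symm
  choose g hg hr using hf
  exact upp_fin P (Bool × Bool × Bool × Bool) 16 (by simp) g χ hg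
    (fun c x y hxy hc => hr c x y ⟨hxy, hc⟩)

end Pool.Agent.Helper23.NW
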